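import Pool.Agent.helper13.UN.SpecG

/-!
# unh:STH (MP_cf4097_nt): from `Sb` to `Th`
-/

set_option autoImplicit false

open NumberField Complex

namespace Pool.Agent.UN

theorem STH_F0 {K : Type} [Field K] [NumberField K] {f : Ideal (𝓞 K)} {F : 𝓞 K → ℂ} (h : FC f F) (hf : f ≠ ⊤) : F 0 = 0 := by
  apply h.zero
  rw [Ideal.span_singleton_eq_bot.2 rfl, bot_sup_eq]
  exact hf

theorem STH_F1 {K : Type} [Field K] [NumberField K] {f : Ideal (𝓞 K)} {F : 𝓞 K → ℂ} (h : FC f F) (hf : f = ⊤) (x : 𝓞 K) : F x = 1 := by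
  rw [h.per x 1 (by rw [hf]; exact Submodule.mem_top), h.one]

theorem STH_Fn {K : Type} [Field K] [NumberField K] {f : Ideal (𝓞 K)} {F : 𝓞 K → ℂ} (h : FC f F) (x : 𝓞 K) : ‖F x‖ ≤ 1 := by
  by_cases hx : Ideal.span {x} ⊔ f = ⊤
  · rw [h.unit x hx]
  · rw [h.zero x hx, norm_zero]
    exact zero_le_one

theorem STH_P0 {K : Type} [Field K] [NumberField K] (m : InfinitePlace K → ℤ) (e : InfinitePlace K → ℕ) :
    (Pm m e (0 : K) = 0) ∨ ((∀ w, e w = 0 ∧ m w = 0) ∧ Pm m e (0 : K) = 1) := by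
  by_cases h : ∀ w, e w = 0 ∧ m w = 0
  · right
    refine ⟨h, ?_⟩
    unfold Pm
    refine Finset.prod_eq_one fun w _ => ?_
    rw [(h w).1, (h w).2]
    simp
  · left
    push Not at h
    obtain ⟨w, hw⟩ := h
    unfold Pm
    refine Finset.prod_eq_zero (Finset.mem_univ w) ?_
    rw [map_zero]
    by_cases he : e w = 0
    · have hm : (m w).natAbs ≠ 0 := Int.natAbs_ne_zero.2 (hw he)
      split_ifs
      · rw [zero_pow hm, mul_zero]
      · rw [map_zero, zero_pow hm, mul_zero]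
    · rw [zero_pow he, zero_mul]

theorem STH (hPNF : PNF_stmt) (hAIF : AIF_stmt) : STH_stmt := by
  classical
  intro K _ _ f χ τ m e F hχ hAd hF hFA
  obtain ⟨-, -, -, a4, -, -, a7⟩ := hAIF K τ m e hAd
  refine ⟨F 0 * Pm m e (0 : K), ?_, ?_⟩
  · by_cases hf : f = ⊤
    · rcases STH_P0 (K := K) m e with h | ⟨h, h1⟩
      · left
        rw [h, mul_zero]
      · right
        refine ⟨by rw [h1, STH_F1 hF hf, mul_one], hf, h, fun x hx => ?_⟩
        rw [hFA x hx, STH_F1 hF hf, one_mul, a4 x]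
        have h2 : (∏ w : InfinitePlace K, (w.embedding (x : K) / (‖w.embedding (x : K)‖ : ℂ)) ^ (e w)) = 1 :=
          Finset.prod_eq_one fun w _ => by rw [(h w).1, pow_zero]
        rw [h2, one_mul]
    · left
      rw [STH_F0 hF hf, zero_mul]
  · intro b y hb hy
    obtain ⟨Pi, hPi⟩ : ∃ Pi : ℂ, Pi = ∏ w : InfinitePlace K, ((y w : ℝ) : ℂ) ^ (ex τ (aa m e) w) := ⟨_, rfl⟩
    unfold Th
    rw [← hPi, mul_assoc ((starRingEnd ℂ) (χ b)) Pi]
    refine congrArg (fun z : ℂ => (starRingEnd ℂ) (χ b) * z) ?_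
    have hs0 : Summable (fun x : b => Pm m e ((x : 𝓞 K) : K) * (Ga y ((x : 𝓞 K) : K) : ℂ)) := by
      have h1 := (hPNF K b 0 m e y hb hAd.1 hAd.2.1 hAd.2.2 hy).1
      simpa only [add_zero] using h1
    have hs : Summable (fun x : b => Pi * (F (x : 𝓞 K) * Pm m e ((x : 𝓞 K) : K) * (Ga y ((x : 𝓞 K) : K) : ℂ))) := by
      refine Summable.mul_left _ (Summable.of_norm_bounded hs0.norm fun x => ?_)
      rw [mul_assoc, norm_mul]
      exact mul_le_of_le_one_left (norm_nonneg _) (STH_Fn hF _)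
    have h1 : Pi * Sb b F m e y = ∑' x : b, Pi * (F (x : 𝓞 K) * Pm m e ((x : 𝓞 K) : K) * (Ga y ((x : 𝓞 K) : K) : ℂ)) := by
      unfold Sb
      rw [tsum_mul_left]
    show F 0 * Pm m e (0 : K) * Pi + Th0 b χ τ (aa m e) y = Pi * Sb b F m e y
    rw [h1, hs.tsum_eq_add_tsum_ite (0 : b)]
    have h2 : Pi * (F ((0 : b) : 𝓞 K) * Pm m e (((0 : b) : 𝓞 K) : K) * (Ga y (((0 : b) : 𝓞 K) : K) : ℂ)) = F 0 * Pm m e (0 : K) * Pi := by
      have h3 : (Ga y (((0 : b) : 𝓞 K) : K) : ℂ) = 1 := by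
        have h4 : Ga y (((0 : b) : 𝓞 K) : K) = 1 := by
          unfold Ga
          have h5 : ∑ w : InfinitePlace K, (w.mult : ℝ) * y w * (w (((0 : b) : 𝓞 K) : K)) ^ 2 = 0 := by
            refine Finset.sum_eq_zero fun w _ => ?_
            have h6 : w (((0 : b) : 𝓞 K) : K) = 0 := map_zero w
            rw [h6]
            ring
          rw [h5, mul_zero, neg_zero, Real.exp_zero]
        rw [h4, Complex.ofReal_one]
      rw [h3]
      show Pi * (F 0 * Pm m e (0 : K) * 1) = F 0 * Pm m e (0 : K) * Pi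
      ring
    rw [h2]
    congr 1
    unfold Th0
    refine tsum_congr fun x => ?_
    by_cases hx : x = 0
    · rw [if_pos hx, hx]
      unfold tq
      have h3 : Ideal.span {(((0 : b) : 𝓞 K))} = ⊥ := Ideal.span_singleton_eq_bot.2 rfl
      rw [h3, hχ.bot, zero_mul]
    · rw [if_neg hx]
      have hx1 : (x : 𝓞 K) ≠ 0 := fun h => hx (Subtype.ext h)
      have hx2 : ((x : 𝓞 K) : K) ≠ 0 := RingOfIntegers.coe_ne_zero_iff.2 hx1
      unfold tq
      rw [hFA _ hx1, mul_assoc, ← a7 _ y hx2 hy, ← hPi]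
      ring

end Pool.Agent.UN
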