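import Pool.Agent.helper82.UN.SpecP

set_option autoImplicit false

open NumberField Complex MeasureTheory nonZeroDivisors

namespace Pool.Agent.UN

/-- integer combinations of a basis of a `ℚ`-space: the equivalence with a set `S` -/
theorem PDB_equiv {K : Type} [Field K] [NumberField K] {ι : Type} [Fintype ι]
    (b : Module.Basis ι ℚ K) (S : Set K)
    (hS : ∀ x : K, x ∈ S ↔ ∃ k : ι → ℤ, x = ∑ i, (k i : K) * b i) :
    ∃ E : (ι → ℤ) ≃ S, ∀ k, ((E k : S) : K) = ∑ i, (k i : K) * b i := by
  classical
  have hinj : ∀ k l : ι → ℤ, ∑ i, (k i : K) * b i = ∑ i, (l i : K) * b i → k = l := by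
    intro k l h
    have h1 : ∑ i, (k i : ℚ) • b i = ∑ i, (l i : ℚ) • b i := by
      simpa [Algebra.smul_def] using h
    have h2 := Fintype.linearIndependent_iff.1 b.linearIndependent
      (fun i => (k i : ℚ) - (l i : ℚ)) (by
        simp only [sub_smul, Finset.sum_sub_distrib]
        rw [h1, sub_self])
    funext i
    exact_mod_cast sub_eq_zero.1 (h2 i)
  let g : (ι → ℤ) → S := fun k => ⟨∑ i, (k i : K) * b i, (hS _).2 ⟨k, rfl⟩⟩
  have hg : Function.Bijective g := by
    constructor
    · intro k l h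
      exact hinj k l (congrArg Subtype.val h)
    · rintro ⟨x, hx⟩
      obtain ⟨k, hk⟩ := (hS x).1 hx
      exact ⟨k, Subtype.ext hk.symm⟩
  exact ⟨Equiv.ofBijective g hg, fun k => rfl⟩

theorem PDB_span {K : Type} [Field K] [NumberField K] {J : Ideal (𝓞 K)}
    {A : (FractionalIdeal (𝓞 K)⁰ K)ˣ}
    (hA : (A : FractionalIdeal (𝓞 K)⁰ K) = (J : FractionalIdeal (𝓞 K)⁰ K)) (x : K) :
    (∃ y ∈ J, ((y : 𝓞 K) : K) = x) ↔
      ∃ k : Module.Free.ChooseBasisIndex ℤ A → ℤ, x = ∑ i, (k i : K) * basisOfFractionalIdeal K A i := by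
  have h1 : (∃ y ∈ J, ((y : 𝓞 K) : K) = x) ↔
      x ∈ Submodule.span ℤ (Set.range (basisOfFractionalIdeal K A)) := by
    rw [mem_span_basisOfFractionalIdeal, hA]
    exact (FractionalIdeal.mem_coeIdeal (S := (𝓞 K)⁰) (P := K) (x := x) (I := J)).symm
  rw [h1, Submodule.mem_span_range_iff_exists_fun]
  constructor
  · rintro ⟨c, hc⟩
    exact ⟨c, by rw [← hc]; exact Finset.sum_congr rfl (fun i _ => by rw [zsmul_eq_mul])⟩
  · rintro ⟨c, hc⟩
    exact ⟨c, by rw [hc]; exact Finset.sum_congr rfl (fun i _ => by rw [zsmul_eq_mul])⟩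

theorem PDB : PDB_stmt := by
  classical
  intro K _ _ J A hA
  constructor
  · obtain ⟨E, hE⟩ := PDB_equiv (basisOfFractionalIdeal K A) {x : K | ∃ y ∈ J, ((y : 𝓞 K) : K) = x}
      (fun x => PDB_span hA x)
    -- the equivalence of `J` with its image in `K`
    let g : J → {x : K | ∃ y ∈ J, ((y : 𝓞 K) : K) = x} := fun y => ⟨((y : 𝓞 K) : K), y, y.2, rfl⟩
    have hg : Function.Bijective g := by
      constructor
      · intro y z h
        have h2 := congrArg Subtype.val h
        exact Subtype.ext (RingOfIntegers.ext h2)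
      · rintro ⟨x, y, hy, rfl⟩
        exact ⟨⟨y, hy⟩, rfl⟩
    refine ⟨E.trans (Equiv.ofBijective g hg).symm, fun k => ?_⟩
    have h3 : (g ((Equiv.ofBijective g hg).symm (E k))) = E k :=
      (Equiv.ofBijective g hg).apply_symm_apply (E k)
    have h4 := congrArg Subtype.val h3
    rw [hE k] at h4
    exact h4
  · set b := basisOfFractionalIdeal K A with hb
    have hn : (Algebra.traceForm ℚ K).Nondegenerate := traceForm_nondegenerate ℚ K
    set ω' := (Algebra.traceForm ℚ K).dualBasis hn b with hω
    have htr : ∀ i j, Algebra.trace ℚ K (ω' i * b j) = if j = i then 1 else 0 := by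
      intro i j
      have := LinearMap.BilinForm.apply_dualBasis_left (B := Algebra.traceForm ℚ K) hn b i j
      rwa [Algebra.traceForm_apply] at this
    have hcoef : ∀ (k : Module.Free.ChooseBasisIndex ℤ A → ℤ) (i : Module.Free.ChooseBasisIndex ℤ A),
        Algebra.trace ℚ K ((∑ j, (k j : K) * ω' j) * b i) = k i := by
      intro k i
      rw [Finset.sum_mul, map_sum]
      rw [Finset.sum_eq_single i]
      · have : (k i : K) * ω' i * b i = (k i : ℚ) • (ω' i * b i) := by
          rw [Algebra.smul_def]; simp [mul_assoc]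
        rw [this, map_smul, htr]; simp
      · intro j _ hj
        have : (k j : K) * ω' j * b i = (k j : ℚ) • (ω' j * b i) := by
          rw [Algebra.smul_def]; simp [mul_assoc]
        rw [this, map_smul, htr, if_neg (Ne.symm hj)]; simp
      · intro h; exact absurd (Finset.mem_univ i) h
    have hmem : ∀ x : K, x ∈ Du J ↔ ∃ k : Module.Free.ChooseBasisIndex ℤ A → ℤ,
        x = ∑ i, (k i : K) * ω' i := by
      intro x
      constructor
      · intro hx
        have h5 : ∀ i, ∃ k : ℤ, Algebra.trace ℚ K (x * b i) = k := by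
          intro i
          obtain ⟨y, hy, hyx⟩ := (PDB_span hA (b i)).2 ⟨fun j => if j = i then 1 else 0, by
            rw [Finset.sum_eq_single i]
            · simp [hb]
            · intro j _ hj; simp [hj]
            · intro h; exact absurd (Finset.mem_univ i) h⟩
          obtain ⟨k, hk⟩ := hx y hy
          exact ⟨k, by rw [← hyx]; exact hk⟩
        choose k hk using h5
        refine ⟨k, ?_⟩
        have h6 := ω'.sum_repr x
        rw [← h6]
        refine Finset.sum_congr rfl (fun i _ => ?_)
        have h7 : ω'.repr x i = Algebra.trace ℚ K (x * b i) := by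
          have := LinearMap.BilinForm.dualBasis_repr_apply (B := Algebra.traceForm ℚ K) hn b x i
          rwa [Algebra.traceForm_apply] at this
        rw [h7, hk, Algebra.smul_def]
        simp
      · rintro ⟨k, rfl⟩ y hy
        obtain ⟨l, hl⟩ := (PDB_span hA ((y : 𝓞 K) : K)).1 ⟨y, hy, rfl⟩
        refine ⟨∑ i, l i * k i, ?_⟩
        rw [hl, Finset.mul_sum, map_sum]
        push_cast
        refine Finset.sum_congr rfl (fun i _ => ?_)
        have h8 : (∑ j, (k j : K) * ω' j) * ((l i : K) * basisOfFractionalIdeal K A i) =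
            (l i : ℚ) • ((∑ j, (k j : K) * ω' j) * b i) := by
          rw [Algebra.smul_def, hb]; simp; ring
        rw [h8, map_smul, hcoef]; simp
    obtain ⟨E, hE⟩ := PDB_equiv ω' (Du J) hmem
    refine ⟨E, ω', fun k => ⟨hE k, fun i => ?_⟩⟩
    rw [hE k]
    exact hcoef k i

end Pool.Agent.UN
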