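import Pool.Agent.helper82.UN.SpecP

set_option autoImplicit false

open NumberField Complex MeasureTheory nonZeroDivisors

namespace Pool.Agent.UN

theorem PPC_zc_add {ι : Type} (l k : ι → ℤ) : zc l + zc k = zc (l + k) := by
  funext i; simp [zc]

theorem PPC : PPC_stmt := by
  intro ι _ f hf hd
  obtain ⟨u, hu, hfu⟩ := hd
  have key : ∀ (l : ι → ℤ) (t : ι → ℝ), (∀ i, |t i - l i| ≤ 1) →
      ∀ k : ι → ℤ, ‖f (t + zc k)‖ ≤ u (l + k) := by
    intro l t ht k
    have h1 := hfu (l + k) (t - zc l) (fun i => by simpa [zc] using ht i)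
    have e : t - zc l + zc (l + k) = t + zc k := by
      funext i
      simp only [zc, Pi.add_apply, Pi.sub_apply, Int.cast_add]
      ring
    rw [e] at h1
    exact h1
  have hs : ∀ l : ι → ℤ, Summable (fun k => u (l + k)) := fun l =>
    (Equiv.addLeft l).summable_iff.2 hu
  have hl : ∀ t : ι → ℝ, ∀ i, |t i - ((round (t i) : ℤ) : ℝ)| < 1 := by
    intro t i
    have h1 := abs_sub_round (t i)
    exact lt_of_le_of_lt h1 (by norm_num)
  refine ⟨?_, ?_, ?_⟩
  · intro t
    exact Summable.of_norm_bounded (hs (fun i => round (t i)))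
      (key (fun i => round (t i)) t (fun i => (hl t i).le))
  · rw [continuous_iff_continuousAt]
    intro t
    have hU : IsOpen {s : ι → ℝ | ∀ i, |s i - ((round (t i) : ℤ) : ℝ)| < 1} := by
      have h2 : {s : ι → ℝ | ∀ i, |s i - ((round (t i) : ℤ) : ℝ)| < 1} =
          ⋂ i, {s : ι → ℝ | |s i - ((round (t i) : ℤ) : ℝ)| < 1} := by
        ext s; simp
      rw [h2]
      exact isOpen_iInter_of_finite (fun i => isOpen_lt (by fun_prop) continuous_const)
    have hc : ContinuousOn (fun t => ∑' k : ι → ℤ, f (t + zc k))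
        {s : ι → ℝ | ∀ i, |s i - ((round (t i) : ℤ) : ℝ)| < 1} :=
      continuousOn_tsum (fun k => (hf.comp (by fun_prop)).continuousOn)
        (hs (fun i => round (t i)))
        (fun k s hs => key (fun i => round (t i)) s (fun i => (hs i).le) k)
    exact hc.continuousAt (hU.mem_nhds (hl t))
  · intro l t
    rw [← (Equiv.addLeft l).tsum_eq (fun k => f (t + zc k))]
    refine tsum_congr (fun k => ?_)
    simp only [Equiv.coe_addLeft]
    rw [← PPC_zc_add, add_assoc]

end Pool.Agent.UN
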